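import Mathlib

/-!
The Tutte polynomial of a connected graph lies in the ideal generated by the Tutte polynomials
of the loopless contractions of `W ∪ {s}`, for the nonempty sets `W` of neighbours of `s`.
-/

namespace Pool.Agent.Results.MP_8e541a_co.Membership

open MvPolynomial

/-- A multigraph with vertex set `V`: each label `e : E` has a pair of ends, and `edges` is the
set of labels of the edges that are present. -/
structure MGraph (V E : Type) where
  ends : E → Sym2 V
  edges : Finset E

section defs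

variable {V E : Type} (H : MGraph V E)

/-- The number of connected components of the spanning subgraph with edge set `A`. -/
noncomputable def comps (A : Finset E) : ℕ := Nat.card (Quot fun u v => ∃ e ∈ A, H.ends e = s(u, v))

/-- The rank of an edge set. -/
noncomputable def rk (A : Finset E) : ℕ := Nat.card V - comps H A

/-- The Tutte polynomial, in the variables `x = X 0` and `y = X 1`. -/
noncomputable def tutte : MvPolynomial (Fin 2) ℚ :=
  ∑ A ∈ H.edges.powerset, (X 0 - 1) ^ (rk H H.edges - rk H A) * (X 1 - 1) ^ (A.card - rk H A)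

/-- Vertex contraction: all vertices of `U` are identified. -/
def contract (U : Set V) : MGraph (Quot fun a b : V => a ∈ U ∧ b ∈ U) E where
  ends e := (H.ends e).map (Quot.mk _)
  edges := H.edges

open Classical in
/-- Deletion of all loops. -/
noncomputable def deleteLoops : MGraph V E where
  ends := H.ends
  edges := H.edges.filter fun e => ¬ (H.ends e).IsDiag

/-- The neighbours of `s`, other than `s`. -/
def nbrs (s : V) : Set V := {u | u ≠ s ∧ ∃ e ∈ H.edges, H.ends e = s(s, u)}

end defs

/-! ### Counting classes -/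

section quot

variable {V : Type}

theorem card_quot_congr {r r' : V → V → Prop} (h1 : ∀ a b, r a b → Quot.mk r' a = Quot.mk r' b)
    (h2 : ∀ a b, r' a b → Quot.mk r a = Quot.mk r b) :
    Nat.card (Quot r) = Nat.card (Quot r') :=
  Nat.card_congr
    { toFun := Quot.lift (Quot.mk r') h1
      invFun := Quot.lift (Quot.mk r) h2
      left_inv := by rintro ⟨a⟩; rfl
      right_inv := by rintro ⟨a⟩; rfl }

/-- Adding the pair `(a, b)` to a relation. -/
def add (r : V → V → Prop) (a b : V) : V → V → Prop := fun x y => r x y ∨ (x = a ∧ y = b)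

theorem card_quot_le [Finite V] (r : V → V → Prop) (a b : V) :
    Nat.card (Quot r) ≤ Nat.card (Quot (add r a b)) + 1 := by
  classical
  -- the map back
  let f : Quot (add r a b) → Quot r :=
    Quot.lift (fun x => if Quot.mk r x = Quot.mk r a then Quot.mk r b else Quot.mk r x) (by
      rintro x y (h | ⟨rfl, rfl⟩)
      · rw [Quot.sound h]
      · rw [if_pos rfl]
        split_ifs <;> rfl)
  let g : Option (Quot (add r a b)) → Quot r := fun o => o.elim (Quot.mk r a) f
  have hg : Function.Surjective g := by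
    rintro ⟨x⟩
    by_cases hx : Quot.mk r x = Quot.mk r a
    · exact ⟨none, hx.symm⟩
    · refine ⟨some (Quot.mk _ x), ?_⟩
      show (if Quot.mk r x = Quot.mk r a then Quot.mk r b else Quot.mk r x) = Quot.mk r x
      rw [if_neg hx]
  have h := Nat.card_le_card_of_surjective g hg
  rwa [Finite.card_option] at h

theorem card_quot_isolated [Finite V] (r : V → V → Prop) {a b : V} (hab : b ≠ a)
    (ha : ∀ x y, r x y → (x = a ↔ y = a)) :
    Nat.card (Quot r) = Nat.card (Quot (add r a b)) + 1 := by
  classical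
  rw [← Finite.card_option]
  refine Nat.card_congr
    { toFun := Quot.lift (fun x => if x = a then none else some (Quot.mk _ x)) ?_
      invFun := fun o => o.elim (Quot.mk r a)
        (Quot.lift (fun x => if x = a then Quot.mk r b else Quot.mk r x) ?_)
      left_inv := ?_
      right_inv := ?_ }
  · intro x y h
    by_cases hx : x = a
    · rw [if_pos hx, if_pos ((ha x y h).1 hx)]
    · rw [if_neg hx, if_neg fun hy => hx ((ha x y h).2 hy)]
      exact congrArg some (Quot.sound (Or.inl h))
  · rintro x y (h | ⟨rfl, rfl⟩)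
    · by_cases hx : x = a
      · rw [if_pos hx, if_pos ((ha x y h).1 hx)]
      · rw [if_neg hx, if_neg fun hy => hx ((ha x y h).2 hy)]
        exact Quot.sound h
    · rw [if_pos rfl, if_neg hab]
  · rintro ⟨x⟩
    show (if x = a then none else some (Quot.mk (add r a b) x)).elim _ _ = Quot.mk r x
    by_cases hx : x = a
    · rw [if_pos hx, hx]; rfl
    · rw [if_neg hx]
      show (if x = a then Quot.mk r b else Quot.mk r x) = _
      rw [if_neg hx]
  · rintro (_ | x)
    · show (if a = a then none else some (Quot.mk (add r a b) a)) = none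
      rw [if_pos rfl]
    · induction x using Quot.ind with | _ x => ?_
      by_cases hx : x = a
      · subst hx
        show Quot.lift (fun y => if y = x then none else some (Quot.mk (add r x b) y)) _
          (if x = x then Quot.mk r b else Quot.mk r x) = some (Quot.mk _ x)
        rw [if_pos rfl]
        show (if b = x then none else some (Quot.mk (add r x b) b)) = _
        rw [if_neg hab]
        refine congrArg some ?_
        symm
        exact Quot.sound (Or.inr ⟨rfl, rfl⟩)
      · show Quot.lift (fun y => if y = a then none else some (Quot.mk (add r a b) y)) _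
          (if x = a then Quot.mk r b else Quot.mk r x) = some (Quot.mk _ x)
        rw [if_neg hx]
        show (if x = a then none else some (Quot.mk (add r a b) x)) = _
        rw [if_neg hx]

theorem quot_eq_iff {U : Set V} {a b : V} :
    Quot.mk (fun a b : V => a ∈ U ∧ b ∈ U) a = Quot.mk _ b ↔ a = b ∨ (a ∈ U ∧ b ∈ U) := by
  constructor
  · intro h
    let f : Quot (fun a b : V => a ∈ U ∧ b ∈ U) → Prop :=
      Quot.lift (fun x => a = x ∨ (a ∈ U ∧ x ∈ U)) (by
        rintro x y ⟨hx, hy⟩
        apply propext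
        constructor
        · rintro (rfl | ⟨h1, -⟩)
          · exact Or.inr ⟨hx, hy⟩
          · exact Or.inr ⟨h1, hy⟩
        · rintro (rfl | ⟨h1, -⟩)
          · exact Or.inr ⟨hy, hx⟩
          · exact Or.inr ⟨h1, hx⟩)
    have h1 : f (Quot.mk _ a) := Or.inl rfl
    rw [h] at h1
    exact h1
  · rintro (rfl | h)
    · rfl
    · exact Quot.sound h

end quot

/-! ### Partition functions -/

section partition_

variable {V E : Type} [DecidableEq E] (ends : E → Sym2 V) {R : Type} [CommRing R] (q v : R)

/-- The number of classes generated by the relation `r` and the edges in `A`. -/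
noncomputable def kk (r : V → V → Prop) (A : Finset E) : ℕ :=
  Nat.card (Quot fun a b => r a b ∨ ∃ e ∈ A, ends e = s(a, b))

/-- The partition function with identifications `r`. -/
noncomputable def Z (S : Finset E) (r : V → V → Prop) : R :=
  ∑ A ∈ S.powerset, v ^ A.card * q ^ kk ends r A

variable {ends q v}

omit [DecidableEq E] in
theorem kk_congr {r r' : V → V → Prop} (h1 : ∀ a b, r a b → Quot.mk r' a = Quot.mk r' b)
    (h2 : ∀ a b, r' a b → Quot.mk r a = Quot.mk r b) (A : Finset E) :
    kk ends r A = kk ends r' A := by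
  have lift : ∀ {r r' : V → V → Prop}, (∀ x y, r x y → r' x y) → ∀ {a b},
      Quot.mk r a = Quot.mk r b → Quot.mk r' a = Quot.mk r' b := by
    intro r r' h a b hab
    exact congrArg (Quot.lift (Quot.mk r') fun x y hxy => Quot.sound (h x y hxy)) hab
  refine card_quot_congr ?_ ?_
  · rintro a b (h | h)
    · exact lift (fun x y h => Or.inl h) (h1 a b h)
    · exact Quot.sound (Or.inr h)
  · rintro a b (h | h)
    · exact lift (fun x y h => Or.inl h) (h2 a b h)
    · exact Quot.sound (Or.inr h)

omit [DecidableEq E] in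
theorem Z_congr {r r' : V → V → Prop} (h1 : ∀ a b, r a b → Quot.mk r' a = Quot.mk r' b)
    (h2 : ∀ a b, r' a b → Quot.mk r a = Quot.mk r b) (S : Finset E) :
    Z ends q v S r = Z ends q v S r' := by
  unfold Z
  refine Finset.sum_congr rfl fun A _ => ?_
  rw [kk_congr h1 h2]

theorem kk_insert {e : E} {a b : V} (he : ends e = s(a, b)) (r : V → V → Prop) (A : Finset E) :
    kk ends r (insert e A) = kk ends (add r a b) A := by
  refine card_quot_congr ?_ ?_
  · rintro x y (h | ⟨f, hf, h⟩)
    · exact Quot.sound (Or.inl (Or.inl h))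
    · rcases Finset.mem_insert.1 hf with rfl | hf
      · rw [he] at h
        rcases Sym2.eq_iff.1 h with ⟨rfl, rfl⟩ | ⟨rfl, rfl⟩
        · exact Quot.sound (Or.inl (Or.inr ⟨rfl, rfl⟩))
        · symm
          exact Quot.sound (Or.inl (Or.inr ⟨rfl, rfl⟩))
      · exact Quot.sound (Or.inr ⟨f, hf, h⟩)
  · rintro x y ((h | ⟨rfl, rfl⟩) | ⟨f, hf, h⟩)
    · exact Quot.sound (Or.inl h)
    · exact Quot.sound (Or.inr ⟨e, Finset.mem_insert_self _ _, he⟩)
    · exact Quot.sound (Or.inr ⟨f, Finset.mem_insert_of_mem hf, h⟩)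

theorem Z_insert {e : E} {a b : V} (he : ends e = s(a, b)) {S : Finset E} (hS : e ∉ S)
    (r : V → V → Prop) :
    Z ends q v (insert e S) r = Z ends q v S r + v * Z ends q v S (add r a b) := by
  unfold Z
  rw [Finset.sum_powerset_insert hS, Finset.mul_sum]
  congr 1
  refine Finset.sum_congr rfl fun A hA => ?_
  rw [kk_insert he, Finset.card_insert_of_notMem fun h => hS (Finset.mem_powerset.1 hA h)]
  ring

theorem Z_loop {e : E} {a b : V} (he : ends e = s(a, b)) {S : Finset E} (hS : e ∉ S)
    {r : V → V → Prop} (hab : Quot.mk r a = Quot.mk r b) :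
    Z ends q v (insert e S) r = (1 + v) * Z ends q v S r := by
  rw [Z_insert he hS]
  have : Z ends q v S (add r a b) = Z ends q v S r := by
    refine Z_congr ?_ ?_ S
    · rintro x y (h | ⟨rfl, rfl⟩)
      · exact Quot.sound h
      · exact hab
    · intro x y h
      exact Quot.sound (Or.inl h)
  rw [this]; ring

theorem Z_loops {r : V → V → Prop} (L S : Finset E) (hLS : Disjoint L S)
    (hL : ∀ e ∈ L, ∃ a b, ends e = s(a, b) ∧ Quot.mk r a = Quot.mk r b) :
    Z ends q v (L ∪ S) r = (1 + v) ^ L.card * Z ends q v S r := by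
  induction L using Finset.induction_on with
  | empty => simp
  | insert e L he ih =>
    obtain ⟨a, b, h1, h2⟩ := hL e (Finset.mem_insert_self _ _)
    rw [Finset.disjoint_insert_left] at hLS
    rw [Finset.insert_union, Z_loop h1 (by simp [he, hLS.1]) h2,
      ih hLS.2 fun f hf => hL f (Finset.mem_insert_of_mem hf), Finset.card_insert_of_notMem he]
    ring

theorem Z_parallel {a b : V} (r : V → V → Prop) (P S : Finset E) (hPS : Disjoint P S)
    (hP : ∀ e ∈ P, ends e = s(a, b)) :
    Z ends q v (P ∪ S) r =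
      Z ends q v S r + ((1 + v) ^ P.card - 1) * Z ends q v S (add r a b) := by
  induction P using Finset.induction_on with
  | empty => simp
  | insert e P he ih =>
    rw [Finset.disjoint_insert_left] at hPS
    have h1 := hP e (Finset.mem_insert_self _ _)
    have h2 := ih hPS.2 fun f hf => hP f (Finset.mem_insert_of_mem hf)
    have h3 : Z ends q v (P ∪ S) (add r a b) =
        (1 + v) ^ P.card * Z ends q v S (add r a b) := by
      refine Z_loops P S hPS.2 fun f hf => ⟨a, b, hP f (Finset.mem_insert_of_mem hf), ?_⟩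
      exact Quot.sound (Or.inr ⟨rfl, rfl⟩)
    rw [Finset.insert_union, Z_insert h1 (by simp [he, hPS.1]), h2, h3,
      Finset.card_insert_of_notMem he]
    ring

/-- Identifying `s` with the vertices in `U`. -/
def glue (s : V) (U : Finset V) : V → V → Prop := fun x y => x = s ∧ y ∈ U

/-- Expansion of the edges at `s`. -/
theorem Z_star [DecidableEq V] (s : V) (P : V → Finset E) (S : Finset E) (M : Finset V)
    (hS : ∀ u ∈ M, Disjoint (P u) S)
    (hP : ∀ u ∈ M, ∀ e ∈ P u, ends e = s(s, u)) (hs : s ∉ M) (W : Finset V) :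
    Z ends q v (M.biUnion P ∪ S) (glue s W) =
      ∑ U ∈ M.powerset, (∏ u ∈ U, ((1 + v) ^ (P u).card - 1)) *
        Z ends q v S (glue s (W ∪ U)) := by
  induction M using Finset.induction_on generalizing W with
  | empty => simp
  | insert u M hu ih =>
    have hS' : ∀ u ∈ M, Disjoint (P u) S := fun w hw => hS w (Finset.mem_insert_of_mem hw)
    have hP' : ∀ u ∈ M, ∀ e ∈ P u, ends e = s(s, u) :=
      fun w hw => hP w (Finset.mem_insert_of_mem hw)
    have hs' : s ∉ M := fun h => hs (Finset.mem_insert_of_mem h)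
    have hus : s ≠ u := fun h => hs (h ▸ Finset.mem_insert_self _ _)
    have hdis : Disjoint (P u) (M.biUnion P ∪ S) := by
      rw [Finset.disjoint_union_right]
      refine ⟨?_, hS u (Finset.mem_insert_self _ _)⟩
      rw [Finset.disjoint_biUnion_right]
      intro w hw
      rw [Finset.disjoint_left]
      intro e he he'
      have h1 := hP u (Finset.mem_insert_self _ _) e he
      have h2 := hP' w hw e he'
      rw [h1] at h2
      rcases Sym2.eq_iff.1 h2 with ⟨-, h3⟩ | ⟨h3, -⟩
      · exact hu (h3 ▸ hw)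
      · exact hs' (h3 ▸ hw)
    rw [Finset.biUnion_insert, Finset.union_assoc, Z_parallel _ _ _ hdis
      (hP u (Finset.mem_insert_self _ _)), ih hS' hP' hs' W]
    have h3 : Z ends q v (M.biUnion P ∪ S) (add (glue s W) s u) =
        Z ends q v (M.biUnion P ∪ S) (glue s (insert u W)) := by
      refine Z_congr ?_ ?_ _
      · rintro x y (⟨rfl, h⟩ | ⟨rfl, rfl⟩)
        · exact Quot.sound ⟨rfl, Finset.mem_insert_of_mem h⟩
        · exact Quot.sound ⟨rfl, Finset.mem_insert_self _ _⟩
      · rintro x y ⟨rfl, h⟩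
        rcases Finset.mem_insert.1 h with rfl | h
        · exact Quot.sound (Or.inr ⟨rfl, rfl⟩)
        · exact Quot.sound (Or.inl ⟨rfl, h⟩)
    rw [h3, ih hS' hP' hs' (insert u W), Finset.sum_powerset_insert hu, Finset.mul_sum]
    congr 1
    refine Finset.sum_congr rfl fun U hU => ?_
    have huU : u ∉ U := fun h => hu (Finset.mem_powerset.1 hU h)
    rw [Finset.prod_insert huU]
    have h4 : insert u W ∪ U = W ∪ insert u U := by
      ext z; simp only [Finset.mem_union, Finset.mem_insert]; tauto
    rw [h4]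
    ring

end partition_

/-! ### Inversion -/

theorem inversion {V R : Type} [DecidableEq V] [CommRing R] (t : V → R) (f : Finset V → R)
    (N : Finset V) :
    ∑ W ∈ N.powerset, (-1) ^ W.card * (∏ u ∈ W, t u) *
      ∑ U ∈ (N \ W).powerset, (∏ u ∈ U, t u) * f (W ∪ U) = f ∅ := by
  have h1 : ∑ W ∈ N.powerset, (-1) ^ W.card * (∏ u ∈ W, t u) *
      ∑ U ∈ (N \ W).powerset, (∏ u ∈ U, t u) * f (W ∪ U) =
      ∑ S ∈ N.powerset, ∑ W ∈ S.powerset, (-1) ^ W.card * ((∏ u ∈ S, t u) * f S) := by
    simp only [Finset.mul_sum]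
    rw [Finset.sum_sigma', Finset.sum_sigma']
    refine Finset.sum_bij' (fun p _ => ⟨p.1 ∪ p.2, p.1⟩) (fun p _ => ⟨p.2, p.1 \ p.2⟩)
      ?_ ?_ ?_ ?_ ?_
    · rintro ⟨W, U⟩ h
      simp only [Finset.mem_sigma, Finset.mem_powerset] at h ⊢
      exact ⟨Finset.union_subset h.1 (h.2.trans Finset.sdiff_subset), Finset.subset_union_left⟩
    · rintro ⟨S, W⟩ h
      simp only [Finset.mem_sigma, Finset.mem_powerset] at h ⊢
      exact ⟨h.2.trans h.1, Finset.sdiff_subset_sdiff h.1 (Finset.Subset.refl _)⟩
    · rintro ⟨W, U⟩ h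
      simp only [Finset.mem_sigma, Finset.mem_powerset] at h
      have : (W ∪ U) \ W = U := by
        rw [Finset.union_sdiff_left]
        exact Finset.sdiff_eq_self_of_disjoint
          (Finset.disjoint_of_subset_left h.2 Finset.sdiff_disjoint)
      simp only [this]
    · rintro ⟨S, W⟩ h
      simp only [Finset.mem_sigma, Finset.mem_powerset] at h
      simp only [Finset.union_sdiff_of_subset h.2]
    · rintro ⟨W, U⟩ h
      simp only [Finset.mem_sigma, Finset.mem_powerset] at h
      have hdis : Disjoint W U :=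
        (Finset.disjoint_of_subset_left h.2 Finset.sdiff_disjoint).symm
      simp only
      rw [Finset.prod_union hdis]
      ring
  rw [h1]
  have h2 : ∀ S ∈ N.powerset, ∑ W ∈ S.powerset, (-1 : R) ^ W.card * ((∏ u ∈ S, t u) * f S) =
      if S = ∅ then f ∅ else 0 := by
    intro S _
    rw [← Finset.sum_mul]
    have h3 := congrArg (fun z : ℤ => (z : R)) (Finset.sum_powerset_neg_one_pow_card (x := S))
    push_cast at h3
    rw [h3]
    by_cases hS : S = ∅
    · subst hS; simp
    · simp [hS]
  rw [Finset.sum_congr rfl h2, Finset.sum_ite_eq' N.powerset]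
  simp

/-! ### The Tutte polynomial and the partition function -/

section tutte_

variable {V E : Type} [DecidableEq E] [Finite V] (H : MGraph V E)

omit [DecidableEq E] [Finite V] in
theorem comps_eq (A : Finset E) : comps H A = kk H.ends (fun _ _ => False) A := by
  refine card_quot_congr ?_ ?_
  · intro a b h
    exact Quot.sound (Or.inr h)
  · rintro a b (h | h)
    · exact h.elim
    · exact Quot.sound h

omit [DecidableEq E] in
theorem kk_le (r : V → V → Prop) (A : Finset E) : kk H.ends r A ≤ Nat.card V :=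
  Nat.card_le_card_of_surjective (Quot.mk _) Quot.mk_surjective

omit [DecidableEq E] in
theorem kk_pos [Nonempty V] (r : V → V → Prop) (A : Finset E) : 0 < kk H.ends r A := by
  obtain ⟨a⟩ := (inferInstance : Nonempty V)
  have : Nonempty (Quot fun a b => r a b ∨ ∃ e ∈ A, H.ends e = s(a, b)) := ⟨Quot.mk _ a⟩
  exact Nat.card_pos

theorem card_le_comps (A : Finset E) : Nat.card V ≤ comps H A + A.card := by
  rw [comps_eq]
  have key : ∀ (A : Finset E) (r : V → V → Prop), kk H.ends r ∅ ≤ kk H.ends r A + A.card := by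
    intro A
    induction A using Finset.induction_on with
    | empty => intro r; simp
    | insert e A he ih =>
      intro r
      obtain ⟨⟨a, b⟩, hab⟩ := Sym2.mk_surjective (H.ends e)
      have hab' : H.ends e = s(a, b) := hab.symm
      rw [kk_insert hab', Finset.card_insert_of_notMem he]
      have h1 : kk H.ends r A ≤ kk H.ends (add r a b) A + 1 := by
        have h2 := card_quot_le (fun x y => r x y ∨ ∃ e ∈ A, H.ends e = s(x, y)) a b
        have h3 : Nat.card (Quot (add (fun x y => r x y ∨ ∃ e ∈ A, H.ends e = s(x, y)) a b)) =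
            kk H.ends (add r a b) A := by
          refine card_quot_congr ?_ ?_
          · rintro x y ((h | h) | h)
            · exact Quot.sound (Or.inl (Or.inl h))
            · exact Quot.sound (Or.inr h)
            · exact Quot.sound (Or.inl (Or.inr h))
          · rintro x y ((h | h) | h)
            · exact Quot.sound (Or.inl (Or.inl h))
            · exact Quot.sound (Or.inr h)
            · exact Quot.sound (Or.inl (Or.inr h))
        rw [h3] at h2
        exact h2
      have h2 := ih r
      omega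
  have h0 := key A fun _ _ => False
  have h1 : kk H.ends (fun _ _ => False) ∅ = Nat.card V := by
    refine (Nat.card_congr (Equiv.ofBijective (Quot.mk _) ⟨?_, Quot.mk_surjective⟩)).symm
    intro a b hab
    have h2 := congrArg (Quot.lift id (by
      rintro x y (h | ⟨e, he, -⟩)
      · exact h.elim
      · exact absurd he (Finset.notMem_empty e))) hab
    exact h2
  rw [h1] at h0
  exact h0

/-- The variables and parameters. -/
noncomputable def xx : MvPolynomial (Fin 2) ℚ := X 0 - 1

/-- The parameter `v = y - 1`. -/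
noncomputable def vv : MvPolynomial (Fin 2) ℚ := X 1 - 1

theorem xx_ne : xx ≠ 0 := by
  intro h
  have := congrArg (MvPolynomial.eval fun _ => (0 : ℚ)) h
  simp [xx] at this

theorem vv_ne : vv ≠ 0 := by
  intro h
  have := congrArg (MvPolynomial.eval fun _ => (0 : ℚ)) h
  simp [vv] at this

theorem tutte_mul [Nonempty V] (hconn : comps H H.edges = 1) :
    tutte H * (xx * vv ^ Nat.card V) = Z H.ends (xx * vv) vv H.edges fun _ _ => False := by
  unfold tutte Z
  rw [Finset.sum_mul]
  refine Finset.sum_congr rfl fun A _ => ?_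
  rw [← comps_eq]
  have h1 : 0 < comps H A := by rw [comps_eq]; exact kk_pos H _ _
  have h2 : comps H A ≤ Nat.card V := by rw [comps_eq]; exact kk_le H _ _
  have h3 := card_le_comps H A
  have e1 : rk H H.edges - rk H A = comps H A - 1 := by
    unfold rk; rw [hconn]; omega
  have e2 : A.card - rk H A + Nat.card V = A.card + comps H A := by
    unfold rk; omega
  rw [e1]
  calc (X 0 - 1) ^ (comps H A - 1) * (X 1 - 1) ^ (A.card - rk H A) * (xx * vv ^ Nat.card V)
      = xx ^ (comps H A - 1 + 1) * vv ^ (A.card - rk H A + Nat.card V) := by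
        rw [pow_succ, pow_add]; unfold xx vv; ring
    _ = vv ^ A.card * (xx * vv) ^ comps H A := by
        rw [e2, Nat.sub_add_cancel h1, pow_add, mul_pow]; ring

end tutte_

/-! ### Contractions -/

section contr

variable {V E : Type} (H : MGraph V E) (s : V) (W : Finset V)

/-- The loopless contraction. -/
noncomputable abbrev HW : MGraph (Quot fun a b : V => a ∈ insert s (W : Set V) ∧
    b ∈ insert s (W : Set V)) E :=
  deleteLoops (contract H (insert s (W : Set V)))

theorem glue_of {r : V → V → Prop} (hr : ∀ u ∈ W, r s u) {a b : V}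
    (ha : a ∈ insert s (W : Set V)) (hb : b ∈ insert s (W : Set V)) :
    Quot.mk r a = Quot.mk r b := by
  have key : ∀ a ∈ insert s (W : Set V), Quot.mk r s = Quot.mk r a := by
    rintro a (rfl | h)
    · rfl
    · exact Quot.sound (hr a h)
  rw [← key a ha, ← key b hb]

theorem comps_HW (A : Finset E) : comps (HW H s W) A = kk H.ends (glue s W) A := by
  have h1 : ∀ a b : V, (a ∈ insert s (W : Set V) ∧ b ∈ insert s (W : Set V)) →
      Quot.mk (fun a b => glue s W a b ∨ ∃ e ∈ A, H.ends e = s(a, b)) a = Quot.mk _ b := by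
    rintro a b ⟨ha, hb⟩
    exact glue_of s W (fun u hu => Or.inl ⟨rfl, hu⟩) ha hb
  refine Nat.card_congr
    { toFun := Quot.lift (Quot.lift (Quot.mk _) h1) ?_
      invFun := Quot.lift (fun a => Quot.mk _ (Quot.mk _ a)) ?_
      left_inv := ?_
      right_inv := ?_ }
  · intro x y
    induction x using Quot.ind with | _ x => ?_
    induction y using Quot.ind with | _ y => ?_
    rintro ⟨e, he, h⟩
    obtain ⟨⟨a, b⟩, hab⟩ := Sym2.mk_surjective (H.ends e)
    have hab' : H.ends e = s(a, b) := hab.symm
    have h2 : (H.ends e).map (Quot.mk fun a b : V => a ∈ insert s (W : Set V) ∧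
      b ∈ insert s (W : Set V)) = s(Quot.mk _ x, Quot.mk _ y) := h
    rw [hab', Sym2.map_mk] at h2
    have h3 : Quot.mk (fun a b => glue s W a b ∨ ∃ e ∈ A, H.ends e = s(a, b)) a = Quot.mk _ b :=
      Quot.sound (Or.inr ⟨e, he, hab'⟩)
    rcases Sym2.eq_iff.1 h2 with ⟨h4, h5⟩ | ⟨h4, h5⟩
    · have h6 := congrArg (Quot.lift (Quot.mk _) h1) h4
      have h7 := congrArg (Quot.lift (Quot.mk _) h1) h5
      exact h6.symm.trans (h3.trans h7)
    · have h6 := congrArg (Quot.lift (Quot.mk _) h1) h4
      have h7 := congrArg (Quot.lift (Quot.mk _) h1) h5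
      exact h7.symm.trans (h3.symm.trans h6)
  · rintro x y (⟨rfl, h⟩ | ⟨e, he, h⟩)
    · refine congrArg _ ?_
      exact Quot.sound ⟨Set.mem_insert _ _, Set.mem_insert_of_mem _ h⟩
    · refine Quot.sound ⟨e, he, ?_⟩
      show (H.ends e).map _ = _
      rw [h, Sym2.map_mk]
  · rintro ⟨⟨a⟩⟩
    rfl
  · rintro ⟨a⟩
    rfl

theorem mem_edges_HW {e : E} {a b : V} (he : H.ends e = s(a, b)) :
    e ∈ (HW H s W).edges ↔ e ∈ H.edges ∧ a ≠ b ∧
      ¬ (a ∈ insert s (W : Set V) ∧ b ∈ insert s (W : Set V)) := by
  have h1 : e ∈ (HW H s W).edges ↔ e ∈ H.edges ∧ ¬ ((H.ends e).map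
      (Quot.mk fun a b : V => a ∈ insert s (W : Set V) ∧ b ∈ insert s (W : Set V))).IsDiag := by
    exact @Finset.mem_filter _ _ (_) _ _
  rw [h1, he, Sym2.map_mk, Sym2.mk_isDiag_iff, quot_eq_iff, not_or]

theorem connected_HW [Finite V] (hconn : comps H H.edges = 1) :
    comps (HW H s W) (HW H s W).edges = 1 := by
  rw [comps_HW]
  have h1 : ∀ a b : V, (∃ e ∈ H.edges, H.ends e = s(a, b)) →
      Quot.mk (fun a b => glue s W a b ∨ ∃ e ∈ (HW H s W).edges, H.ends e = s(a, b)) a =
        Quot.mk _ b := by
    rintro a b ⟨e, he, hab⟩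
    by_cases h : e ∈ (HW H s W).edges
    · exact Quot.sound (Or.inr ⟨e, h, hab⟩)
    · rw [mem_edges_HW H s W hab] at h
      by_cases hab' : a = b
      · rw [hab']
      · have h2 : a ∈ insert s (W : Set V) ∧ b ∈ insert s (W : Set V) := by
          by_contra hc
          exact h ⟨he, hab', hc⟩
        exact glue_of s W (fun u hu => Or.inl ⟨rfl, hu⟩) h2.1 h2.2
  have h2 : kk H.ends (glue s W) (HW H s W).edges ≤ comps H H.edges := by
    refine Nat.card_le_card_of_surjective (Quot.lift (Quot.mk _) h1) ?_
    rintro ⟨a⟩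
    exact ⟨Quot.mk _ a, rfl⟩
  have h3 : 0 < kk H.ends (glue s W) (HW H s W).edges := by
    have : Nonempty (Quot fun a b => glue s W a b ∨
        ∃ e ∈ (HW H s W).edges, H.ends e = s(a, b)) := ⟨Quot.mk _ s⟩
    exact Nat.card_pos
  omega

theorem card_HW [Finite V] (hs : s ∉ W) :
    Nat.card (Quot fun a b : V => a ∈ insert s (W : Set V) ∧ b ∈ insert s (W : Set V)) + W.card =
      Nat.card V := by
  classical
  have h1 : Nat.card (Quot fun a b : V => a ∈ insert s (W : Set V) ∧
      b ∈ insert s (W : Set V)) = Nat.card (Quot (glue s W)) := by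
    refine card_quot_congr ?_ ?_
    · rintro a b ⟨ha, hb⟩
      exact glue_of s W (fun u hu => ⟨rfl, hu⟩) ha hb
    · rintro a b ⟨rfl, h⟩
      exact Quot.sound ⟨Set.mem_insert _ _, Set.mem_insert_of_mem _ h⟩
  rw [h1]
  clear h1
  induction W using Finset.induction_on with
  | empty =>
    rw [Finset.card_empty, add_zero]
    refine (Nat.card_congr (Equiv.ofBijective (Quot.mk _) ⟨?_, Quot.mk_surjective⟩)).symm
    intro a b hab
    have h2 := congrArg (Quot.lift id (by
      rintro x y ⟨-, h⟩
      exact absurd h (Finset.notMem_empty y))) hab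
    exact h2
  | insert u W hu ih =>
    have hsW : s ∉ W := fun h => hs (Finset.mem_insert_of_mem h)
    have hsu : s ≠ u := fun h => hs (h ▸ Finset.mem_insert_self _ _)
    have h2 := card_quot_isolated (glue s W) (a := u) (b := s) hsu (by
      rintro x y ⟨rfl, h⟩
      constructor
      · intro h'; exact absurd h' hsu
      · rintro rfl; exact absurd h hu)
    have h3 : Nat.card (Quot (add (glue s W) u s)) = Nat.card (Quot (glue s (insert u W))) := by
      refine card_quot_congr ?_ ?_
      · rintro x y (⟨rfl, h⟩ | ⟨rfl, rfl⟩)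
        · exact Quot.sound ⟨rfl, Finset.mem_insert_of_mem h⟩
        · symm
          exact Quot.sound ⟨rfl, Finset.mem_insert_self _ _⟩
      · rintro x y ⟨rfl, h⟩
        rcases Finset.mem_insert.1 h with rfl | h
        · symm
          exact Quot.sound (Or.inr ⟨rfl, rfl⟩)
        · exact Quot.sound (Or.inl ⟨rfl, h⟩)
    rw [Finset.card_insert_of_notMem hu, ← h3]
    have := ih hsW
    omega

end contr

/-! ### The proof -/

section proof

variable {V E : Type} (H : MGraph V E) (s : V)

open Classical in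
/-- The edges joining `s` and `u`. -/
noncomputable def P (u : V) : Finset E := H.edges.filter fun e => H.ends e = s(s, u)

open Classical in
/-- The nonloop edges not incident with `s`. -/
noncomputable def S0 : Finset E := H.edges.filter fun e => ¬ (H.ends e).IsDiag ∧ s ∉ H.ends e

open Classical in
/-- The loops. -/
noncomputable def Lp : Finset E := H.edges.filter fun e => (H.ends e).IsDiag

open Classical in
/-- The edges that become loops. -/
noncomputable def LW (W : Finset V) : Finset E := (S0 H s).filter fun e => ∀ a ∈ H.ends e, a ∈ W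

variable {H s}

theorem mem_P {u : V} {e : E} : e ∈ P H s u ↔ e ∈ H.edges ∧ H.ends e = s(s, u) := by
  classical
  unfold P; rw [Finset.mem_filter]

theorem mem_S0 {e : E} {a b : V} (he : H.ends e = s(a, b)) :
    e ∈ S0 H s ↔ e ∈ H.edges ∧ a ≠ b ∧ s ≠ a ∧ s ≠ b := by
  classical
  unfold S0
  rw [Finset.mem_filter, he, Sym2.mk_isDiag_iff, Sym2.mem_iff, not_or]

theorem mem_Lp {e : E} {a b : V} (he : H.ends e = s(a, b)) :
    e ∈ Lp H ↔ e ∈ H.edges ∧ a = b := by
  classical
  unfold Lp
  rw [Finset.mem_filter, he, Sym2.mk_isDiag_iff]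

theorem mem_LW {W : Finset V} {e : E} {a b : V} (he : H.ends e = s(a, b)) :
    e ∈ LW H s W ↔ (e ∈ H.edges ∧ a ≠ b ∧ s ≠ a ∧ s ≠ b) ∧ a ∈ W ∧ b ∈ W := by
  classical
  unfold LW
  rw [Finset.mem_filter, mem_S0 he, he]
  simp only [Sym2.mem_iff, forall_eq_or_imp, forall_eq]

theorem exists_ends (e : E) : ∃ a b, H.ends e = s(a, b) := by
  obtain ⟨⟨a, b⟩, hab⟩ := Sym2.mk_surjective (H.ends e)
  exact ⟨a, b, hab.symm⟩

theorem P_disjoint_S0 (u : V) : Disjoint (P H s u) (S0 H s) := by
  rw [Finset.disjoint_left]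
  intro e h1 h2
  have h3 := (mem_P.1 h1).2
  exact ((mem_S0 h3).1 h2).2.2.1 rfl

theorem edges_LW [DecidableEq V] [DecidableEq E] {N W : Finset V}
    (hN : ∀ u, u ∈ N ↔ u ∈ nbrs H s) (hW : W ⊆ N) :
    LW H s W ∪ (HW H s W).edges = (N \ W).biUnion (P H s) ∪ S0 H s := by
  have hs : s ∉ W := fun h => ((hN s).1 (hW h)).1 rfl
  ext e
  obtain ⟨a, b, he⟩ := exists_ends (H := H) e
  rw [Finset.mem_union, mem_LW he, mem_edges_HW H s W he, Finset.mem_union, mem_S0 he,
    Finset.mem_biUnion]
  simp only [Set.mem_insert_iff, Finset.mem_coe, mem_P, Finset.mem_sdiff, he]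
  constructor
  · rintro (⟨h, -, -⟩ | ⟨h1, h2, h3⟩)
    · exact Or.inr h
    · by_cases ha : s = a
      · left
        refine ⟨b, ⟨(hN b).2 ⟨fun h => h2 (by rw [h, ha]), e, h1, by rw [he, ha]⟩, ?_⟩, h1,
          by rw [ha]⟩
        intro hb
        exact h3 ⟨Or.inl ha.symm, Or.inr hb⟩
      · by_cases hb : s = b
        · left
          refine ⟨a, ⟨(hN a).2 ⟨fun h => ha h.symm, e, h1, by rw [he, hb, Sym2.eq_swap]⟩, ?_⟩, h1,
            by rw [hb, Sym2.eq_swap]⟩
          intro ha'
          exact h3 ⟨Or.inr ha', Or.inl hb.symm⟩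
        · exact Or.inr ⟨h1, h2, ha, hb⟩
  · rintro (⟨u, ⟨huN, huW⟩, h1, h2⟩ | h)
    · right
      have hus : u ≠ s := ((hN u).1 huN).1
      rcases Sym2.eq_iff.1 h2 with ⟨rfl, rfl⟩ | ⟨rfl, rfl⟩
      · refine ⟨h1, hus.symm, ?_⟩
        rintro ⟨-, h | h⟩
        · exact hus h
        · exact huW h
      · refine ⟨h1, hus, ?_⟩
        rintro ⟨h | h, -⟩
        · exact hus h
        · exact huW h
    · by_cases hab : a ∈ W ∧ b ∈ W
      · exact Or.inl ⟨h, hab⟩
      · right
        refine ⟨h.1, h.2.1, ?_⟩
        rintro ⟨h1, h2⟩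
        exact hab ⟨h1.resolve_left fun h' => h.2.2.1 h'.symm,
          h2.resolve_left fun h' => h.2.2.2 h'.symm⟩

theorem edges_eq [DecidableEq V] [DecidableEq E] {N : Finset V}
    (hN : ∀ u, u ∈ N ↔ u ∈ nbrs H s) :
    H.edges = Lp H ∪ (N.biUnion (P H s) ∪ S0 H s) := by
  ext e
  obtain ⟨a, b, he⟩ := exists_ends (H := H) e
  rw [Finset.mem_union, mem_Lp he, Finset.mem_union, mem_S0 he, Finset.mem_biUnion]
  simp only [mem_P, he]
  constructor
  · intro h1
    by_cases h2 : a = b
    · exact Or.inl ⟨h1, h2⟩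
    · right
      by_cases ha : s = a
      · left
        exact ⟨b, (hN b).2 ⟨fun h => h2 (by rw [h, ha]), e, h1, by rw [he, ha]⟩, h1, by rw [ha]⟩
      · by_cases hb : s = b
        · left
          exact ⟨a, (hN a).2 ⟨fun h => ha h.symm, e, h1, by rw [he, hb, Sym2.eq_swap]⟩, h1,
            by rw [hb, Sym2.eq_swap]⟩
        · exact Or.inr ⟨h1, h2, ha, hb⟩
  · rintro (⟨h, -⟩ | ⟨u, -, h, -⟩ | ⟨h, -⟩)
    · exact h
    · exact h
    · exact h

/-- The partition functions of the graph without the edges at `s`. -/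
noncomputable def K (H : MGraph V E) (s : V) (U : Finset V) : MvPolynomial (Fin 2) ℚ := by
  classical
  exact Z H.ends (xx * vv) vv (S0 H s) (glue s U)

/-- The weights. -/
noncomputable def tt (H : MGraph V E) (s : V) (u : V) : MvPolynomial (Fin 2) ℚ :=
  (1 + vv) ^ (P H s u).card - 1

/-- The sums. -/
noncomputable def gg (H : MGraph V E) (s : V) (N W : Finset V) : MvPolynomial (Fin 2) ℚ := by
  classical
  exact ∑ U ∈ (N \ W).powerset, (∏ u ∈ U, tt H s u) * K H s (W ∪ U)

theorem gg_eq [Finite V] (hconn : comps H H.edges = 1) {N W : Finset V}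
    (hN : ∀ u, u ∈ N ↔ u ∈ nbrs H s) (hW : W ⊆ N) :
    gg H s N W = (1 + vv) ^ (LW H s W).card * (tutte (HW H s W) *
      (xx * vv ^ (Nat.card V - W.card))) := by
  classical
  have hs : s ∉ W := fun h => ((hN s).1 (hW h)).1 rfl
  have hcard := card_HW s W hs
  have h1 : Nonempty (Quot fun a b : V => a ∈ insert s (W : Set V) ∧ b ∈ insert s (W : Set V)) :=
    ⟨Quot.mk _ s⟩
  have h2 := tutte_mul (HW H s W) (connected_HW H s W hconn)
  have h3 : Nat.card V - W.card =
      Nat.card (Quot fun a b : V => a ∈ insert s (W : Set V) ∧ b ∈ insert s (W : Set V)) := by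
    omega
  have h4 : Z (HW H s W).ends (xx * vv) vv (HW H s W).edges (fun _ _ => False) =
      Z H.ends (xx * vv) vv (HW H s W).edges (glue s W) := by
    unfold Z
    refine Finset.sum_congr rfl fun A _ => ?_
    rw [← comps_eq, comps_HW]
  rw [h3, h2, h4]
  have h5 : Z H.ends (xx * vv) vv (LW H s W ∪ (HW H s W).edges) (glue s W) =
      (1 + vv) ^ (LW H s W).card * Z H.ends (xx * vv) vv (HW H s W).edges (glue s W) := by
    refine Z_loops _ _ ?_ ?_
    · rw [Finset.disjoint_left]
      intro e he1 he2
      obtain ⟨a, b, he⟩ := exists_ends (H := H) e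
      rw [mem_LW he] at he1
      rw [mem_edges_HW H s W he] at he2
      exact he2.2.2 ⟨Set.mem_insert_of_mem _ he1.2.1, Set.mem_insert_of_mem _ he1.2.2⟩
    · intro e he1
      obtain ⟨a, b, he⟩ := exists_ends (H := H) e
      rw [mem_LW he] at he1
      refine ⟨a, b, he, ?_⟩
      exact glue_of s W (fun u hu => ⟨rfl, hu⟩) (Set.mem_insert_of_mem _ he1.2.1)
        (Set.mem_insert_of_mem _ he1.2.2)
  rw [← h5, edges_LW hN hW]
  rw [Z_star s (P H s) (S0 H s) (N \ W) (fun u _ => P_disjoint_S0 u)
    (fun u _ e he => (mem_P.1 he).2) (fun h => ((hN s).1 (Finset.mem_sdiff.1 h).1).1 rfl) W]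
  unfold gg K tt
  rfl

theorem tutte_eq [Finite V] (hconn : comps H H.edges = 1) {N : Finset V}
    (hN : ∀ u, u ∈ N ↔ u ∈ nbrs H s) :
    tutte H * (xx * vv ^ Nat.card V) = (1 + vv) ^ (Lp H).card * gg H s N ∅ := by
  classical
  have h1 : Nonempty V := ⟨s⟩
  rw [tutte_mul H hconn]
  have h2 : Z H.ends (xx * vv) vv H.edges (fun _ _ => False) =
      Z H.ends (xx * vv) vv H.edges (glue s ∅) := by
    refine Z_congr ?_ ?_ _
    · intro a b h; exact h.elim
    · rintro a b ⟨-, h⟩; exact absurd h (Finset.notMem_empty _)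
  rw [h2]
  have h3 : Z H.ends (xx * vv) vv (Lp H ∪ (N.biUnion (P H s) ∪ S0 H s)) (glue s ∅) =
      (1 + vv) ^ (Lp H).card *
        Z H.ends (xx * vv) vv (N.biUnion (P H s) ∪ S0 H s) (glue s ∅) := by
    refine Z_loops _ _ ?_ ?_
    · rw [Finset.disjoint_left]
      intro e he1 he2
      obtain ⟨a, b, he⟩ := exists_ends (H := H) e
      rw [mem_Lp he] at he1
      rw [Finset.mem_union, Finset.mem_biUnion, mem_S0 he] at he2
      rcases he2 with ⟨u, hu, h⟩ | h
      · have h4 := (mem_P.1 h).2
        rw [he, he1.2] at h4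
        rcases Sym2.eq_iff.1 h4 with ⟨h5, h6⟩ | ⟨h5, h6⟩
        · exact ((hN u).1 hu).1 (by rw [← h6, h5])
        · exact ((hN u).1 hu).1 (by rw [← h5, h6])
      · exact h.2.1 he1.2
    · intro e he1
      obtain ⟨a, b, he⟩ := exists_ends (H := H) e
      rw [mem_Lp he] at he1
      refine ⟨a, b, he, ?_⟩
      rw [he1.2]
  rw [← edges_eq hN] at h3
  rw [h3, Z_star s (P H s) (S0 H s) N (fun u _ => P_disjoint_S0 u)
    (fun u _ e he => (mem_P.1 he).2) (fun h => ((hN s).1 h).1 rfl) ∅]
  unfold gg K tt
  rw [Finset.sdiff_empty]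

theorem K_empty [Finite V] {w : V} (hw : w ≠ s) : K H s ∅ = xx * vv * K H s {w} := by
  classical
  unfold K Z
  rw [Finset.mul_sum]
  refine Finset.sum_congr rfl fun A hA => ?_
  rw [Finset.mem_powerset] at hA
  have h1 : kk H.ends (glue s ∅) A = kk H.ends (glue s {w}) A + 1 := by
    have h2 := card_quot_isolated (fun x y => glue s ∅ x y ∨ ∃ e ∈ A, H.ends e = s(x, y))
      (a := s) (b := w) hw (by
        rintro x y (⟨-, h⟩ | ⟨e, he, h⟩)
        · exact absurd h (Finset.notMem_empty _)
        · have h3 := (mem_S0 h).1 (hA he)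
          constructor
          · intro h'; exact absurd h'.symm h3.2.2.1
          · intro h'; exact absurd h'.symm h3.2.2.2)
    have h3 : Nat.card (Quot (add (fun x y => glue s ∅ x y ∨ ∃ e ∈ A, H.ends e = s(x, y)) s w)) =
        kk H.ends (glue s {w}) A := by
      refine card_quot_congr ?_ ?_
      · rintro x y ((⟨-, h⟩ | h) | ⟨rfl, rfl⟩)
        · exact absurd h (Finset.notMem_empty _)
        · exact Quot.sound (Or.inr h)
        · exact Quot.sound (Or.inl ⟨rfl, Finset.mem_singleton_self _⟩)
      · rintro x y (⟨rfl, h⟩ | h)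
        · rw [Finset.mem_singleton] at h
          exact Quot.sound (Or.inr ⟨rfl, h⟩)
        · exact Quot.sound (Or.inl (Or.inr h))
    rw [h3] at h2
    exact h2
  rw [h1, pow_succ]
  ring

theorem claimA (N : Finset V) :
    ∑ W ∈ N.powerset, (-1) ^ W.card * (∏ u ∈ W, tt H s u) * gg H s N W = K H s ∅ := by
  classical
  rw [← inversion (tt H s) (K H s) N]
  refine Finset.sum_congr rfl fun W _ => ?_
  unfold gg
  rfl

open Classical in
theorem claimB {N : Finset V} {w : V} (_ : w ∈ N) :
    ∑ W ∈ (N.erase w).powerset, (-1) ^ W.card * (∏ u ∈ W, tt H s u) *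
      gg H s N (insert w W) = K H s {w} := by
  have h0 : ∀ W : Finset V, gg H s N (insert w W) =
      ∑ U ∈ ((N.erase w) \ W).powerset, (∏ u ∈ U, tt H s u) *
        K H s (insert w (W ∪ U)) := by
    intro W
    have h2 : (N.erase w) \ W = N \ insert w W := by
      ext z; simp only [Finset.mem_sdiff, Finset.mem_insert, Finset.mem_erase]; tauto
    rw [h2]
    have h3 : gg H s N (insert w W) = ∑ U ∈ (N \ insert w W).powerset, (∏ u ∈ U, tt H s u) *
        K H s (insert w W ∪ U) := by
      unfold gg
      rfl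
    rw [h3]
    refine Finset.sum_congr rfl fun U _ => ?_
    have h4 : insert w W ∪ U = insert w (W ∪ U) := by
      ext z; simp only [Finset.mem_union, Finset.mem_insert]; tauto
    rw [h4]
  have h1 := inversion (tt H s) (fun S => K H s (insert w S)) (N.erase w)
  rw [show insert w (∅ : Finset V) = {w} from rfl] at h1
  rw [← h1]
  refine Finset.sum_congr rfl fun W _ => ?_
  rw [h0 W]

/-- The polynomial `[m]`. -/
noncomputable def geo (H : MGraph V E) (s : V) (u : V) : MvPolynomial (Fin 2) ℚ :=
  ∑ i ∈ Finset.range (P H s u).card, (1 + vv) ^ i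

theorem tt_eq (u : V) : tt H s u = vv * geo H s u := by
  have h := geom_sum_mul (1 + vv) (P H s u).card
  unfold tt geo
  rw [← h]
  ring

theorem prod_tt (W : Finset V) : ∏ u ∈ W, tt H s u = vv ^ W.card * ∏ u ∈ W, geo H s u := by
  simp only [tt_eq, Finset.prod_mul_distrib, Finset.prod_const]

theorem nbrs_nonempty [Finite V] (hconn : comps H H.edges = 1) (h2 : 2 ≤ Nat.card V) :
    (nbrs H s).Nonempty := by
  by_contra hne
  rw [Set.not_nonempty_iff_eq_empty] at hne
  have key : ∀ a b : V, (∃ e ∈ H.edges, H.ends e = s(a, b)) → (a = s) = (b = s) := by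
    rintro a b ⟨e, he, hab⟩
    apply propext
    constructor
    · rintro rfl
      by_contra hb
      have : b ∈ nbrs H a := ⟨hb, e, he, hab⟩
      rw [hne] at this
      exact this
    · rintro rfl
      by_contra ha
      have : a ∈ nbrs H b := ⟨ha, e, he, by rw [hab, Sym2.eq_swap]⟩
      rw [hne] at this
      exact this
  have h3 : ∀ b : V, b = s := by
    intro b
    have h4 := (Nat.card_eq_one_iff_unique.1 hconn).1
    have h5 := congrArg (Quot.lift (fun a => a = s) key)
      (h4.elim (Quot.mk _ b) (Quot.mk _ s))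
    have h6 : (b = s) = (s = s) := h5
    rw [h6]
  have : Subsingleton V := ⟨fun a b => by rw [h3 a, h3 b]⟩
  have := Finite.card_le_one_iff_subsingleton.2 this
  omega

end proof

/-- For a connected graph `G` with at least two vertices and any vertex `s`, the Tutte polynomial
of `G` lies in the ideal generated by the Tutte polynomials of the loopless contractions of
`W ∪ {s}`, over the nonempty sets `W` of neighbours of `s`. -/
theorem result : ∀ (V E : Type) [Finite V] (G : MGraph V E) (s : V),
    comps G G.edges = 1 → 2 ≤ Nat.card V →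
    tutte G ∈ Ideal.span {p | ∃ W : Set V, W.Nonempty ∧ W ⊆ nbrs G s ∧
      p = tutte (deleteLoops (contract G (insert s W)))} := by
  classical
  intro V E _ H s hconn h2
  set I := Ideal.span {p | ∃ W : Set V, W.Nonempty ∧ W ⊆ nbrs H s ∧
      p = tutte (deleteLoops (contract H (insert s W)))} with hI
  obtain ⟨N, hN⟩ : ∃ N : Finset V, ∀ u, u ∈ N ↔ u ∈ nbrs H s :=
    ⟨(Set.toFinite (nbrs H s)).toFinset, fun u => Set.Finite.mem_toFinset _⟩
  obtain ⟨w, hw⟩ := nbrs_nonempty (s := s) hconn h2
  have hwN : w ∈ N := (hN w).2 hw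
  have hcard : ∀ W : Finset V, W.card ≤ Nat.card V := by
    intro W
    have := Fintype.ofFinite V
    rw [Nat.card_eq_fintype_card]
    exact Finset.card_le_univ W
  have hmem : ∀ W ⊆ N, W.Nonempty → tutte (HW H s W) ∈ I := by
    intro W hW hne
    refine Ideal.subset_span ⟨(W : Set V), Finset.coe_nonempty.2 hne, ?_, rfl⟩
    intro u hu
    exact (hN u).1 (hW hu)
  have h3 : tutte H * (xx * vv ^ Nat.card V) ∈ I * Ideal.span {xx * vv ^ Nat.card V} := by
    rw [tutte_eq hconn hN]
    refine Ideal.mul_mem_left _ _ ?_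
    have h4 := claimA (H := H) (s := s) N
    have h5 : ∑ W ∈ N.powerset, (-1) ^ W.card * (∏ u ∈ W, tt H s u) * gg H s N W =
        gg H s N ∅ + ∑ W ∈ N.powerset.erase ∅, (-1) ^ W.card * (∏ u ∈ W, tt H s u) *
          gg H s N W := by
      rw [← Finset.add_sum_erase _ _ (Finset.empty_mem_powerset N)]
      simp
    have h6 : gg H s N ∅ = xx * vv * (∑ W ∈ (N.erase w).powerset,
        (-1) ^ W.card * (∏ u ∈ W, tt H s u) * gg H s N (insert w W)) -
        ∑ W ∈ N.powerset.erase ∅, (-1) ^ W.card * (∏ u ∈ W, tt H s u) * gg H s N W := by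
      rw [claimB hwN, ← K_empty hw.1, ← h4, h5]
      ring
    rw [h6]
    refine Ideal.sub_mem _ ?_ ?_
    · rw [Finset.mul_sum]
      refine Ideal.sum_mem _ fun W hW => ?_
      have hW' : W ⊆ N.erase w := Finset.mem_powerset.1 hW
      have hwW : w ∉ W := fun h => Finset.notMem_erase w N (hW' h)
      have hins : insert w W ⊆ N :=
        Finset.insert_subset hwN (hW'.trans (Finset.erase_subset _ _))
      rw [Ideal.mem_mul_span_singleton]
      refine ⟨xx * (-1) ^ W.card * (∏ u ∈ W, geo H s u) * (1 + vv) ^ (LW H s (insert w W)).card *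
        tutte (HW H s (insert w W)), Ideal.mul_mem_left _ _ (hmem _ hins ⟨w, by simp⟩), ?_⟩
      rw [gg_eq hconn hN hins, prod_tt]
      have h7 : vv ^ Nat.card V = vv * vv ^ W.card * vv ^ (Nat.card V - (insert w W).card) := by
        have h8 := hcard (insert w W)
        rw [Finset.card_insert_of_notMem hwW] at h8 ⊢
        rw [← pow_succ', ← pow_add]
        congr 1
        omega
      rw [h7]
      ring
    · refine Ideal.sum_mem _ fun W hW => ?_
      rw [Finset.mem_erase, Finset.mem_powerset] at hW
      rw [Ideal.mem_mul_span_singleton]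
      refine ⟨(-1) ^ W.card * (∏ u ∈ W, geo H s u) * (1 + vv) ^ (LW H s W).card *
        tutte (HW H s W), Ideal.mul_mem_left _ _
          (hmem _ hW.2 (Finset.nonempty_iff_ne_empty.2 hW.1)), ?_⟩
      rw [gg_eq hconn hN hW.2, prod_tt]
      have h7 : vv ^ Nat.card V = vv ^ W.card * vv ^ (Nat.card V - W.card) := by
        rw [← pow_add]
        congr 1
        have := hcard W
        omega
      rw [h7]
      ring
  rw [Ideal.mem_mul_span_singleton] at h3
  obtain ⟨z, hz, h4⟩ := h3
  have hne : xx * vv ^ Nat.card V ≠ 0 := mul_ne_zero xx_ne (pow_ne_zero _ vv_ne)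
  have h5 := mul_right_cancel₀ hne h4
  rw [← h5]
  exact hz

end Pool.Agent.Results.MP_8e541a_co.Membership
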